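import Pool.Agent.Helper999.Irr.Defs

/-!
Brooms of every order: a path `0, 1, …, m + 1` whose first vertex `0` carries `p - 1` further leaves
(adapted from `Pool/Agent/Helper999/Irr/Broom.lean`, where the order is `2 p + 2`).
-/

namespace Pool.Agent.Y937.Irr

open Finset Pool.Agent.Helper999.Irr

/-- the parent function -/
def par (m j : ℕ) : ℕ := if j ≤ m + 1 then j - 1 else 0

lemma par_lt {m j : ℕ} (hj : 1 ≤ j) : par m j < j := by
  unfold par; split_ifs <;> omega

/-- the broom with `m` inner vertices of degree two and `p` leaves -/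
def brm (m p : ℕ) : SimpleGraph (Fin (m + p + 1)) where
  Adj i j := (i.val < j.val ∧ par m j.val = i.val) ∨ (j.val < i.val ∧ par m i.val = j.val)
  symm := by
    constructor
    intro i j h
    rcases h with h | h
    · exact Or.inr h
    · exact Or.inl h
  loopless := by
    constructor
    intro i h
    rcases h with h | h <;> exact absurd h.1 (lt_irrefl _)

lemma brm_adj (m p : ℕ) (i j : Fin (m + p + 1)) : (brm m p).Adj i j ↔
    (i.val < j.val ∧ par m j.val = i.val) ∨ (j.val < i.val ∧ par m i.val = j.val) :=
  Iff.rfl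

lemma brm_reach (m p : ℕ) : ∀ k : ℕ, ∀ hk : k < m + p + 1,
    (brm m p).Reachable ⟨0, by omega⟩ ⟨k, hk⟩ := by
  intro k
  induction k using Nat.strong_induction_on with
  | _ k ih =>
    intro hk
    rcases Nat.eq_zero_or_pos k with h | h
    · subst h
      exact SimpleGraph.Reachable.refl _
    · have h1 : par m k < k := par_lt h
      refine (ih _ h1 (by omega)).trans (SimpleGraph.Adj.reachable ?_)
      exact Or.inl ⟨h1, rfl⟩

lemma brm_tree (m p : ℕ) : (brm m p).IsTree := by
  have hc : (brm m p).Connected := by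
    rw [SimpleGraph.connected_iff_exists_forall_reachable]
    exact ⟨⟨0, by omega⟩, fun w => brm_reach m p w.1 w.2⟩
  rw [SimpleGraph.isTree_iff_connected_and_card]
  refine ⟨hc, ?_⟩
  have h1 := hc.card_vert_le_card_edgeSet_add_one
  have h2 : Nat.card (brm m p).edgeSet ≤ m + p := by
    have h3 : (brm m p).edgeSet ⊆ Set.range (fun j : Fin (m + p) =>
        (s(⟨j.val + 1, by omega⟩, ⟨par m (j.val + 1), by
          have := par_lt (m := m) (j := j.val + 1) (by omega)
          omega⟩) : Sym2 (Fin (m + p + 1)))) := by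
      intro e
      induction e using Sym2.ind with
      | _ a b =>
        intro he
        rw [SimpleGraph.mem_edgeSet] at he
        rcases he with ⟨h4, h5⟩ | ⟨h4, h5⟩
        · refine ⟨⟨b.val - 1, by omega⟩, ?_⟩
          have e1 : b.val - 1 + 1 = b.val := by omega
          rw [Sym2.eq_swap (a := a) (b := b)]
          simp only [e1, h5, Fin.eta]
        · refine ⟨⟨a.val - 1, by omega⟩, ?_⟩
          have e1 : a.val - 1 + 1 = a.val := by omega
          simp only [e1, h5, Fin.eta]
    have h6 : Nat.card (brm m p).edgeSet = (brm m p).edgeSet.ncard := rfl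
    rw [h6]
    refine (Set.ncard_le_ncard h3 (Set.finite_range _)).trans ?_
    rw [← Set.image_univ]
    refine (Set.ncard_image_le Set.finite_univ).trans ?_
    rw [Set.ncard_univ, Nat.card_eq_fintype_card, Fintype.card_fin]
  rw [Nat.card_eq_fintype_card (α := Fin (m + p + 1)), Fintype.card_fin] at h1 ⊢
  omega

/-- a leaf -/
lemma brm_leaf (m p : ℕ) (v : Fin (m + p + 1)) (hv : m + 1 ≤ v.val) :
    ∃ a : Fin (m + p + 1), ∀ u, (brm m p).Adj v u ↔ u = a := by
  have h0 : par m v.val < v.val := par_lt (by omega)
  refine ⟨⟨par m v.val, by omega⟩, fun u => ?_⟩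
  rw [brm_adj, Fin.ext_iff]
  constructor
  · rintro (⟨h1, h2⟩ | ⟨h1, h2⟩)
    · exfalso
      unfold par at h2
      split_ifs at h2 <;> omega
    · exact h2.symm
  · intro h
    exact Or.inr ⟨by rw [h]; exact h0, h.symm⟩

/-- an inner vertex -/
lemma brm_inner (m p : ℕ) (hp : 1 ≤ p) (v : Fin (m + p + 1)) (hv : v.val < m + 1)
    (hv0 : 1 ≤ v.val) :
    ∃ a b : Fin (m + p + 1), a ≠ b ∧ ∀ u, (brm m p).Adj v u ↔ (u = a ∨ u = b) := by
  have k1 : v.val - 1 < m + p + 1 := by omega
  have k2 : v.val + 1 < m + p + 1 := by omega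
  refine ⟨⟨v.val - 1, k1⟩, ⟨v.val + 1, k2⟩, ?_, fun u => ?_⟩
  · intro h
    rw [Fin.ext_iff] at h
    simp only at h
    omega
  · rw [brm_adj, Fin.ext_iff, Fin.ext_iff]
    unfold par
    constructor
    · rintro (⟨h1, h2⟩ | ⟨h1, h2⟩)
      · right
        show u.val = v.val + 1
        split_ifs at h2 <;> omega
      · left
        show u.val = v.val - 1
        split_ifs at h2 <;> omega
    · rintro (h | h)
      · right
        have h' : u.val = v.val - 1 := h
        refine ⟨by omega, ?_⟩
        rw [if_pos (by omega), h']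
      · left
        have h' : u.val = v.val + 1 := h
        refine ⟨by omega, ?_⟩
        rw [if_pos (by omega), h']
        omega

lemma brm_leafCount (m p : ℕ) (hp : 2 ≤ p) : leafCount (brm m p) = p := by
  have hset : {v : Fin (m + p + 1) | ((brm m p).neighborSet v).ncard = 1} =
      Set.range (fun i : Fin p => (⟨i.val + (m + 1), by omega⟩ : Fin (m + p + 1))) := by
    ext v
    constructor
    · intro hv
      have hv' : ((brm m p).neighborSet v).ncard = 1 := hv
      by_cases h : m + 1 ≤ v.val
      · refine ⟨⟨v.val - (m + 1), by omega⟩, ?_⟩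
        rw [Fin.ext_iff]
        show v.val - (m + 1) + (m + 1) = v.val
        omega
      · exfalso
        rw [Set.ncard_eq_one] at hv'
        obtain ⟨a, ha⟩ := hv'
        rcases Nat.eq_zero_or_pos v.val with h0 | h0
        · have m1 : (⟨1, by omega⟩ : Fin (m + p + 1)) ∈ (brm m p).neighborSet v := by
            left
            refine ⟨by rw [h0]; exact Nat.zero_lt_one, ?_⟩
            show par m 1 = v.val
            unfold par
            rw [if_pos (by omega), h0]
          have m2 : (⟨m + 2, by omega⟩ : Fin (m + p + 1)) ∈ (brm m p).neighborSet v := by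
            left
            refine ⟨by rw [h0]; show 0 < m + 2; omega, ?_⟩
            show par m (m + 2) = v.val
            unfold par
            rw [if_neg (by omega), h0]
          rw [ha, Set.mem_singleton_iff] at m1 m2
          rw [← m2, Fin.ext_iff] at m1
          simp only at m1
          omega
        · obtain ⟨b, c, hbc, hiff⟩ := brm_inner m p (by omega) v (by omega) h0
          have m1 : b ∈ (brm m p).neighborSet v := (hiff b).2 (Or.inl rfl)
          have m2 : c ∈ (brm m p).neighborSet v := (hiff c).2 (Or.inr rfl)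
          rw [ha, Set.mem_singleton_iff] at m1 m2
          exact hbc (m1.trans m2.symm)
    · rintro ⟨i, rfl⟩
      obtain ⟨a, ha⟩ := brm_leaf m p ⟨i.val + (m + 1), by omega⟩
        (by show m + 1 ≤ i.val + (m + 1); omega)
      show ((brm m p).neighborSet _).ncard = 1
      rw [Set.ncard_eq_one]
      refine ⟨a, ?_⟩
      ext u
      rw [Set.mem_singleton_iff]
      exact ha u
  unfold leafCount
  rw [hset, ← Set.image_univ, Set.ncard_image_of_injective, Set.ncard_univ,
    Nat.card_eq_fintype_card, Fintype.card_fin]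
  intro i j hij
  simp only [Fin.mk.injEq] at hij
  exact Fin.ext (by omega)

/-- every irregular weighting of the broom has a weight which is at least half of `m + p` -/
lemma brm_weight (m p : ℕ) (hp : 1 ≤ p) (k : ℕ) (w : Sym2 (Fin (m + p + 1)) → ℕ)
    (hw : IsIrregular (brm m p) w) (hk : ∀ e ∈ (brm m p).edgeSet, w e ≤ k) : m + p ≤ 2 * k := by
  classical
  obtain ⟨hw1, hinj⟩ := hw
  have hlow : ∀ v u : Fin (m + p + 1), (brm m p).Adj v u → 1 ≤ wdeg (brm m p) w v := by
    intro v u hvu
    unfold wdeg
    have h1 : (if (brm m p).Adj v u then w s(v, u) else 0) ≤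
        ∑ u : Fin (m + p + 1), if (brm m p).Adj v u then w s(v, u) else 0 :=
      Finset.single_le_sum (f := fun u => if (brm m p).Adj v u then w s(v, u) else 0)
        (fun _ _ => Nat.zero_le _) (Finset.mem_univ u)
    rw [if_pos hvu] at h1
    refine le_trans ?_ (le_trans h1 (le_of_eq ?_))
    · exact hw1 _ ((brm m p).mem_edgeSet.2 hvu)
    · refine Finset.sum_congr rfl fun u _ => ?_
      by_cases h : (brm m p).Adj v u
      · simp only [if_pos h]
      · simp only [if_neg h]
  have hupp : ∀ v a b : Fin (m + p + 1), (∀ u, (brm m p).Adj v u → (u = a ∨ u = b)) →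
      wdeg (brm m p) w v ≤ 2 * k := by
    intro v a b hab
    unfold wdeg
    have h1 : ∀ u : Fin (m + p + 1), (if (brm m p).Adj v u then w s(v, u) else 0) ≤
        (if u = a then k else 0) + (if u = b then k else 0) := by
      intro u
      by_cases h : (brm m p).Adj v u
      · rw [if_pos h]
        have h2 : w s(v, u) ≤ k := hk _ ((brm m p).mem_edgeSet.2 h)
        rcases hab u h with h3 | h3
        · rw [if_pos h3]
          exact h2.trans (Nat.le_add_right _ _)
        · rw [if_pos h3]
          exact h2.trans (Nat.le_add_left _ _)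
      · rw [if_neg h]
        exact Nat.zero_le _
    have h2 := Finset.sum_le_sum (s := Finset.univ) fun u (_ : u ∈ Finset.univ) => h1 u
    rw [Finset.sum_add_distrib, Finset.sum_ite_eq' Finset.univ a, Finset.sum_ite_eq' Finset.univ b,
      if_pos (Finset.mem_univ _), if_pos (Finset.mem_univ _)] at h2
    refine le_trans (le_of_eq ?_) (h2.trans (by omega))
    refine Finset.sum_congr rfl fun u _ => ?_
    by_cases h : (brm m p).Adj v u
    · simp only [if_pos h]
    · simp only [if_neg h]
  have hrange : ∀ v : Fin (m + p + 1), 1 ≤ v.val → wdeg (brm m p) w v ∈ Finset.Icc 1 (2 * k) := by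
    intro v hv
    rw [Finset.mem_Icc]
    by_cases h : m + 1 ≤ v.val
    · obtain ⟨a, ha⟩ := brm_leaf m p v h
      exact ⟨hlow v a ((ha a).2 rfl), hupp v a a fun u hu => Or.inl ((ha u).1 hu)⟩
    · obtain ⟨a, b, _, hab⟩ := brm_inner m p hp v (by omega) hv
      exact ⟨hlow v a ((hab a).2 (Or.inl rfl)), hupp v a b fun u hu => (hab u).1 hu⟩
  have hcard : (Finset.univ : Finset (Fin (m + p))).card ≤ (Finset.Icc 1 (2 * k)).card := by
    refine Finset.card_le_card_of_injOn
      (fun i : Fin (m + p) => wdeg (brm m p) w ⟨i.val + 1, by omega⟩) ?_ ?_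
    · intro i _
      exact hrange _ (by show 1 ≤ i.val + 1; omega)
    · intro i _ j _ hij
      have := hinj hij
      rw [Fin.mk.injEq] at this
      exact Fin.ext (by omega)
  rw [Finset.card_univ, Fintype.card_fin, Nat.card_Icc] at hcard
  omega

end Pool.Agent.Y937.Irr
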